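import Mathlib
import Pool.Agent.TH551.HA.Fin

/-!
# MP_e734ed_nt: the inequality of Hall for short sums of S-units

Let `p, q ≥ 1`, `k`, a finitely generated group `Γ` of rational numbers (for instance all `S`-units
for a finite set `S` of primes) and `ε > 0` be given. There is `K` such that for all integers `x`,
`y` which are sums of at most `k` elements of `Γ` with integral coefficients of absolute value at
most `M`,

  `x = ∑ u j * a j`, `y = ∑ u j * c j`, `y ^ q ≠ x ^ p`,

we have `max (|x| ^ p, |y| ^ q) ^ (1 - 1 / p - 1 / q - ε) ≤ (K M) ^ K |y ^ q - x ^ p|`. For `p = 3`,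
`q = 2` this is `|x| ^ (1 / 2 - 3 ε) ≤ (K M) ^ K |y ^ 2 - x ^ 3|`: the weak form of the conjecture
of Hall for these integers (`M` fixed, or `M = |x| ^ o(1)`). The exponent is that of Hall.

The proof: for a sequence of counterexamples the sizes at all places of `S` of the classes of terms
(modulo negligible factors) of `x ^ p`, `y ^ q` and of the difference are compared with the sizes
of the sums (the `S`-adic subspace theorem, with moving coefficients, in an ultrapower of `ℚ`);
the classes of the monomials are separated by integral weights, this gives one-parameter families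
of polynomials, and the argument of Davenport with the Wronskian is carried out with all
places of `S` at the same time.
-/

set_option autoImplicit false

namespace Pool.Agent.Results.MP_e734ed_nt.HallSUnitSums

theorem result (p q k : ℕ) (hp : 1 ≤ p) (hq : 1 ≤ q) (Γ : Subgroup ℚˣ) (hΓ : Γ.FG) (ε : ℝ)
    (hε : 0 < ε) :
    ∃ K : ℝ, 0 < K ∧ ∀ M : ℝ, 1 ≤ M → ∀ (u : Fin k → Γ) (a c : Fin k → ℤ),
      (∀ j, |(a j : ℝ)| ≤ M) → (∀ j, |(c j : ℝ)| ≤ M) → ∀ x y : ℤ,
      (x : ℚ) = ∑ j, ((u j : ℚˣ) : ℚ) * a j → (y : ℚ) = ∑ j, ((u j : ℚˣ) : ℚ) * c j →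
      y ^ q ≠ x ^ p →
      (max (|(x : ℝ)| ^ p) (|(y : ℝ)| ^ q)) ^ (1 - 1 / (p : ℝ) - 1 / (q : ℝ) - ε) ≤
        (K * M) ^ K * |(y : ℝ) ^ q - (x : ℝ) ^ p| :=
  Pool.Agent.TH551.HA.hallPow p q k hp hq Γ hΓ ε hε

end Pool.Agent.Results.MP_e734ed_nt.HallSUnitSums
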